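import Pool.Agent.TTC.StmtsF

set_option autoImplicit false

/-! Squad TTC, row HT6: the height of the odd model. -/

open Polynomial

namespace Pool.Agent.TTC.H3

lemma c6 (t D : ℝ) (ht : 0 ≤ t) (hD : 0 ≤ D)
    (h : t ^ 6 ≤ D * (t ^ 5 + t ^ 4 + t ^ 3 + t ^ 2 + t + 1)) : t ≤ 1 + D := by
  by_contra hlt
  push Not at hlt
  have hS : 0 < t ^ 5 + t ^ 4 + t ^ 3 + t ^ 2 + t + 1 := by positivity
  have h1 : D * (t ^ 5 + t ^ 4 + t ^ 3 + t ^ 2 + t + 1) ≤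
      (t - 1) * (t ^ 5 + t ^ 4 + t ^ 3 + t ^ 2 + t + 1) :=
    mul_le_mul_of_nonneg_right (by linarith) hS.le
  have h2 : (t - 1) * (t ^ 5 + t ^ 4 + t ^ 3 + t ^ 2 + t + 1) = t ^ 6 - 1 := by ring
  linarith

lemma c5 (t D : ℝ) (ht : 0 ≤ t) (hD : 0 ≤ D)
    (h : t ^ 5 ≤ D * (t ^ 4 + t ^ 3 + t ^ 2 + t + 1)) : t ≤ 1 + D := by
  by_contra hlt
  push Not at hlt
  have hS : 0 < t ^ 4 + t ^ 3 + t ^ 2 + t + 1 := by positivity
  have h1 : D * (t ^ 4 + t ^ 3 + t ^ 2 + t + 1) ≤ (t - 1) * (t ^ 4 + t ^ 3 + t ^ 2 + t + 1) :=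
    mul_le_mul_of_nonneg_right (by linarith) hS.le
  have h2 : (t - 1) * (t ^ 4 + t ^ 3 + t ^ 2 + t + 1) = t ^ 5 - 1 := by ring
  linarith

lemma mB {N : ℝ} {x y : ℂ} {m n : ℕ} (hx : ‖x‖ ≤ N ^ m) (hy : ‖y‖ ≤ N ^ n) :
    ‖x * y‖ ≤ N ^ (m + n) := by
  rw [norm_mul, pow_add]
  exact mul_le_mul hx hy (norm_nonneg _) ((norm_nonneg _).trans hx)

lemma pB {N : ℝ} {x : ℂ} {m : ℕ} (e : ℕ) (hx : ‖x‖ ≤ N ^ m) : ‖x ^ e‖ ≤ N ^ (m * e) := by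
  rw [norm_pow, pow_mul]
  exact pow_le_pow_left₀ (norm_nonneg _) hx e

lemma aB {N : ℝ} (hN : 4 ≤ N) {x y : ℂ} {m n : ℕ} (hx : ‖x‖ ≤ N ^ m) (hy : ‖y‖ ≤ N ^ n) :
    ‖x + y‖ ≤ N ^ (max m n + 1) := by
  have h1 : N ^ m ≤ N ^ max m n := pow_le_pow_right₀ (by linarith) (le_max_left _ _)
  have h2 : N ^ n ≤ N ^ max m n := pow_le_pow_right₀ (by linarith) (le_max_right _ _)
  have h3 : 0 ≤ N ^ max m n := (norm_nonneg x).trans (hx.trans h1)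
  calc ‖x + y‖ ≤ ‖x‖ + ‖y‖ := norm_add_le _ _
    _ ≤ N ^ max m n + N ^ max m n := add_le_add (hx.trans h1) (hy.trans h2)
    _ ≤ N ^ max m n * N := by nlinarith
    _ = N ^ (max m n + 1) := (pow_succ _ _).symm

lemma nB {N : ℝ} (hN : 4 ≤ N) {x : ℂ} {m : ℕ} (k : ℕ) (hk : k ≤ 64) (hx : ‖x‖ ≤ N ^ m) :
    ‖(k : ℂ) * x‖ ≤ N ^ (3 + m) := by
  refine mB ?_ hx
  rw [Complex.norm_natCast]
  have h1 : (k : ℝ) ≤ 64 := by exact_mod_cast hk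
  have h2 : (4 : ℝ) ^ 3 ≤ N ^ 3 := pow_le_pow_left₀ (by norm_num) hN 3
  linarith

lemma up {N : ℝ} (hN : 4 ≤ N) {x : ℂ} {m : ℕ} (n : ℕ) (h : m ≤ n) (hx : ‖x‖ ≤ N ^ m) :
    ‖x‖ ≤ N ^ n := hx.trans (pow_le_pow_right₀ (by linarith) h)

lemma tc (a : Fin 7 → ℂ) (α : ℂ) (j : ℕ) : (taylor α (sext a)).coeff j =
    ((Nat.choose 6 j : ℕ) : ℂ) * (a 0 * α ^ (6 - j)) + ((Nat.choose 5 j : ℕ) : ℂ) * (a 1 * α ^ (5 - j)) +
    ((Nat.choose 4 j : ℕ) : ℂ) * (a 2 * α ^ (4 - j)) + ((Nat.choose 3 j : ℕ) : ℂ) * (a 3 * α ^ (3 - j)) +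
    ((Nat.choose 2 j : ℕ) : ℂ) * (a 4 * α ^ (2 - j)) + ((Nat.choose 1 j : ℕ) : ℂ) * (a 5 * α ^ (1 - j)) +
    ((Nat.choose 0 j : ℕ) : ℂ) * (a 6 * α ^ (0 - j)) := by
  have h1 : sext a = monomial 6 (a 0) + monomial 5 (a 1) + monomial 4 (a 2) + monomial 3 (a 3) +
      monomial 2 (a 4) + monomial 1 (a 5) + monomial 0 (a 6) := by
    unfold sext
    simp only [← C_mul_X_pow_eq_monomial, pow_zero, mul_one, pow_one]
  rw [taylor_coeff, h1]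
  simp only [map_add, hasseDeriv_monomial, eval_add, eval_monomial, mul_assoc]

lemma tB {N : ℝ} (hN : 4 ≤ N) (a : Fin 7 → ℂ) (α : ℂ) (ha : ∀ i, ‖a i‖ ≤ N ^ 1) (hα : ‖α‖ ≤ N ^ 1)
    (j : ℕ) : ‖(taylor α (sext a)).coeff j‖ ≤ N ^ 16 := by
  rw [tc]
  have hterm : ∀ (i : Fin 7) (n : ℕ), n ≤ 6 →
      ‖((Nat.choose n j : ℕ) : ℂ) * (a i * α ^ (n - j))‖ ≤ N ^ 10 := by
    intro i n hn
    have hk : Nat.choose n j ≤ 64 :=
      calc Nat.choose n j ≤ 2 ^ n := Nat.choose_le_two_pow n j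
        _ ≤ 2 ^ 6 := Nat.pow_le_pow_right (by norm_num) hn
        _ = 64 := by norm_num
    exact up hN 10 (by omega) (nB hN _ hk (mB (ha i) (pB (n - j) hα)))
  have h := aB hN (aB hN (aB hN (aB hN (aB hN (aB hN (hterm 0 6 (by norm_num)) (hterm 1 5 (by norm_num)))
    (hterm 2 4 (by norm_num))) (hterm 3 3 (by norm_num))) (hterm 4 2 (by norm_num)))
    (hterm 5 1 (by norm_num))) (hterm 6 0 (by norm_num))
  exact h

lemma alB (a : Fin 7 → ℤ) (α : ℂ) (M : ℕ) (hM : 1 ≤ M) (ha : ∀ i, |a i| ≤ (M : ℤ)) (h0 : a 0 ≠ 0)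
    (h : (a 0 : ℂ) * α ^ 6 + a 1 * α ^ 5 + a 2 * α ^ 4 + a 3 * α ^ 3 + a 4 * α ^ 2 + a 5 * α + a 6 = 0) :
    ‖α‖ ≤ 1 + M := by
  have hMr : (1 : ℝ) ≤ M := by exact_mod_cast hM
  have ha' : ∀ i, ‖((a i : ℤ) : ℂ)‖ ≤ (M : ℝ) := fun i => by
    rw [Complex.norm_intCast]
    exact_mod_cast ha i
  have h01 : (1 : ℝ) ≤ ‖((a 0 : ℤ) : ℂ)‖ := by
    rw [Complex.norm_intCast]
    exact_mod_cast Int.one_le_abs h0
  refine c6 _ _ (norm_nonneg _) (by linarith) ?_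
  have he : (a 0 : ℂ) * α ^ 6 = -(a 1 * α ^ 5 + a 2 * α ^ 4 + a 3 * α ^ 3 + a 4 * α ^ 2 + a 5 * α + a 6) := by
    linear_combination h
  have h1 : ‖α‖ ^ 6 ≤ ‖(a 0 : ℂ) * α ^ 6‖ := by
    rw [norm_mul, norm_pow]
    nlinarith [pow_nonneg (norm_nonneg α) 6]
  have ht : ∀ (i : Fin 7) (n : ℕ), ‖((a i : ℤ) : ℂ) * α ^ n‖ ≤ M * ‖α‖ ^ n := by
    intro i n
    rw [norm_mul, norm_pow]
    exact mul_le_mul_of_nonneg_right (ha' i) (pow_nonneg (norm_nonneg _) _)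
  have h2 : ‖-((a 1 : ℂ) * α ^ 5 + a 2 * α ^ 4 + a 3 * α ^ 3 + a 4 * α ^ 2 + a 5 * α + a 6)‖ ≤
      M * ‖α‖ ^ 5 + M * ‖α‖ ^ 4 + M * ‖α‖ ^ 3 + M * ‖α‖ ^ 2 + M * ‖α‖ + M := by
    rw [norm_neg]
    refine (norm_add_le _ _).trans (add_le_add ((norm_add_le _ _).trans (add_le_add
      ((norm_add_le _ _).trans (add_le_add ((norm_add_le _ _).trans (add_le_add
      ((norm_add_le _ _).trans (add_le_add (ht 1 5) (ht 2 4))) (ht 3 3))) (ht 4 2))) ?_)) (ha' 6))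
    have := ht 5 1
    rwa [pow_one, pow_one] at this
  rw [← he] at h2
  calc ‖α‖ ^ 6 ≤ _ := h1.trans h2
    _ = _ := by ring

lemma omB {N : ℝ} (hN : 4 ≤ N) (a : Fin 7 → ℂ) (α : ℂ) (ha : ∀ i, ‖a i‖ ≤ N ^ 1) (hα : ‖α‖ ≤ N ^ 1)
    (z : ℂ) (hz : (om a α).IsRoot z) : ‖z‖ ≤ 1 + N ^ 100 := by
  have hT := tB hN a α ha hα
  have hN1 : (1 : ℝ) ≤ N := by linarith
  have k2 : ‖(taylor α (sext a)).coeff 2 * a 0 ^ 4‖ ≤ N ^ 100 :=
    up hN 100 (by norm_num) (mB (hT 2) (pB 4 (ha 0)))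
  have k3 : ‖(taylor α (sext a)).coeff 3 * (taylor α (sext a)).coeff 1 * a 0 ^ 8‖ ≤ N ^ 100 :=
    up hN 100 (by norm_num) (mB (mB (hT 3) (hT 1)) (pB 8 (ha 0)))
  have k4 : ‖(taylor α (sext a)).coeff 4 * (taylor α (sext a)).coeff 1 ^ 2 * a 0 ^ 12‖ ≤ N ^ 100 :=
    up hN 100 (by norm_num) (mB (mB (hT 4) (pB 2 (hT 1))) (pB 12 (ha 0)))
  have k5 : ‖(taylor α (sext a)).coeff 5 * (taylor α (sext a)).coeff 1 ^ 3 * a 0 ^ 16‖ ≤ N ^ 100 :=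
    up hN 100 (by norm_num) (mB (mB (hT 5) (pB 3 (hT 1))) (pB 16 (ha 0)))
  have k6 : ‖(taylor α (sext a)).coeff 6 * (taylor α (sext a)).coeff 1 ^ 4 * a 0 ^ 20‖ ≤ N ^ 100 :=
    up hN 100 (by norm_num) (mB (mB (hT 6) (pB 4 (hT 1))) (pB 20 (ha 0)))
  have he : (om a α).eval z = 0 := hz
  unfold om at he
  simp only [eval_add, eval_mul, eval_C, eval_X, eval_pow] at he
  generalize (taylor α (sext a)).coeff 2 * a 0 ^ 4 = u2 at *
  generalize (taylor α (sext a)).coeff 3 * (taylor α (sext a)).coeff 1 * a 0 ^ 8 = u3 at *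
  generalize (taylor α (sext a)).coeff 4 * (taylor α (sext a)).coeff 1 ^ 2 * a 0 ^ 12 = u4 at *
  generalize (taylor α (sext a)).coeff 5 * (taylor α (sext a)).coeff 1 ^ 3 * a 0 ^ 16 = u5 at *
  generalize (taylor α (sext a)).coeff 6 * (taylor α (sext a)).coeff 1 ^ 4 * a 0 ^ 20 = u6 at *
  have hD : (0 : ℝ) ≤ N ^ 100 := by positivity
  generalize N ^ 100 = D at *
  refine c5 _ _ (norm_nonneg _) hD ?_
  have he' : z ^ 5 = -(u2 * z ^ 4 + u3 * z ^ 3 + u4 * z ^ 2 + u5 * z + u6) := by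
    linear_combination he
  have ht : ∀ (u : ℂ) (n : ℕ), ‖u‖ ≤ D → ‖u * z ^ n‖ ≤ D * ‖z‖ ^ n := by
    intro u n hu
    rw [norm_mul, norm_pow]
    exact mul_le_mul_of_nonneg_right hu (pow_nonneg (norm_nonneg _) _)
  have h2 : ‖-(u2 * z ^ 4 + u3 * z ^ 3 + u4 * z ^ 2 + u5 * z + u6)‖ ≤
      D * ‖z‖ ^ 4 + D * ‖z‖ ^ 3 + D * ‖z‖ ^ 2 + D * ‖z‖ + D := by
    rw [norm_neg]
    refine (norm_add_le _ _).trans (add_le_add ((norm_add_le _ _).trans (add_le_add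
      ((norm_add_le _ _).trans (add_le_add ((norm_add_le _ _).trans (add_le_add
      (ht _ 4 k2) (ht _ 3 k3))) (ht _ 2 k4))) ?_)) k6)
    have := ht _ 1 k5
    rwa [pow_one, pow_one] at this
  rw [← he', norm_pow] at h2
  calc ‖z‖ ^ 5 ≤ _ := h2
    _ = _ := by ring

/-- **HT6** of squad TTC. -/
theorem ht6 (na6 : Na6Stmt) : Ht6Stmt := by
  refine ⟨101, ?_⟩
  intro K _ _ a α M hM ha h0 hα
  have hMr : (1 : ℝ) ≤ M := by exact_mod_cast hM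
  have hN : (4 : ℝ) ≤ 4 * M := by linarith
  have hlog : 0 ≤ Real.log (4 * M) := Real.log_nonneg (by linarith)
  -- the equation of α
  have heq : (a 0 : K) * α ^ 6 + a 1 * α ^ 5 + a 2 * α ^ 4 + a 3 * α ^ 3 + a 4 * α ^ 2 + a 5 * α + a 6 = 0 := by
    unfold sext at hα
    simpa using hα
  have hv : ∀ v : NumberField.InfinitePlace K,
      Real.log (SZT.spr ((om (fun i => ((a i : ℤ) : K)) α).map v.embedding)) ≤ 101 * Real.log (4 * M) := by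
    intro v
    have hom : (om (fun i => ((a i : ℤ) : K)) α).map v.embedding =
        om (fun i => ((a i : ℤ) : ℂ)) (v.embedding α) := by
      have h1 := (na6 K ℂ v.embedding (fun i => ((a i : ℤ) : K))).2.2.2 α
      simp only [map_intCast] at h1
      exact h1.symm
    have heq' := congrArg v.embedding heq
    simp only [map_add, map_mul, map_pow, map_intCast, map_zero] at heq'
    have hα' := alB a (v.embedding α) M hM ha h0 heq'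
    have hαN : ‖v.embedding α‖ ≤ (4 * M : ℝ) ^ 1 := by
      rw [pow_one]
      linarith
    have haN : ∀ i, ‖((a i : ℤ) : ℂ)‖ ≤ (4 * M : ℝ) ^ 1 := fun i => by
      rw [Complex.norm_intCast, pow_one]
      have : |((a i : ℤ) : ℝ)| ≤ M := by exact_mod_cast ha i
      linarith
    rw [hom]
    have hD : (1 : ℝ) ≤ (4 * M : ℝ) ^ 100 := one_le_pow₀ (by linarith)
    have hspr : SZT.spr (om (fun i => ((a i : ℤ) : ℂ)) (v.embedding α)) ≤ (4 * M : ℝ) ^ 101 := by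
      unfold SZT.spr
      refine Real.sSup_le ?_ (by positivity)
      rintro r ⟨x, y, hx, hy, rfl⟩
      have h1 := omB hN _ _ haN hαN x hx
      have h2 := omB hN _ _ haN hαN y hy
      calc ‖x - y‖ ≤ ‖x‖ + ‖y‖ := norm_sub_le _ _
        _ ≤ (4 * M : ℝ) ^ 100 * 4 := by linarith
        _ ≤ (4 * M : ℝ) ^ 100 * (4 * M) := mul_le_mul_of_nonneg_left hN (by positivity)
        _ = (4 * M : ℝ) ^ 101 := (pow_succ _ _).symm
    have hspr0 : 0 ≤ SZT.spr (om (fun i => ((a i : ℤ) : ℂ)) (v.embedding α)) := by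
      unfold SZT.spr
      refine Real.sSup_nonneg ?_
      rintro r ⟨x, y, hx, hy, rfl⟩
      exact norm_nonneg _
    rcases hspr0.eq_or_lt with h | h
    · rw [← h, Real.log_zero]
      positivity
    · calc Real.log _ ≤ Real.log ((4 * M : ℝ) ^ 101) := Real.log_le_log h hspr
        _ = 101 * Real.log (4 * M) := by
          rw [Real.log_pow]
          norm_num
  unfold SZT.lH
  calc ∑ v : NumberField.InfinitePlace K, (v.mult : ℝ)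
        * Real.log (SZT.spr ((om (fun i => ((a i : ℤ) : K)) α).map v.embedding))
      ≤ ∑ v : NumberField.InfinitePlace K, (v.mult : ℝ) * (101 * Real.log (4 * M)) :=
        Finset.sum_le_sum fun v _ => mul_le_mul_of_nonneg_left (hv v) (Nat.cast_nonneg _)
    _ = (Module.finrank ℚ K : ℝ) * (((101 : ℕ) : ℝ) * Real.log (4 * M)) := by
        rw [← Finset.sum_mul, ← NumberField.InfinitePlace.sum_mult_eq (K := K)]
        push_cast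
        rfl

end Pool.Agent.TTC.H3
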